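import Mathlib
import Pool.Agent.R407.QF.Comb

/-!
# Fermat hypersurfaces are quasi-F-pure of height two when `p ≡ 2 (mod n)` and `d < n`

Let `k` be a perfect field of characteristic `p > 2`, `n ≥ 3`, `p = a n + 2` with `a ≥ 1`, `d > 1`,
`p ≤ (a + 1) d` (that is `⌈p / (a + 1)⌉ ≤ d`) and `d < n`. We show that the ring
`R = k[x_1, …, x_n] / (x_1 ^ d + ⋯ + x_n ^ d)` is 2-quasi-F-pure. This answers the question in the
affirmative; the height is exactly two, as `R` is known not to be `F`-pure.

Proof. Put `f = x_1 ^ d + ⋯ + x_n ^ d` over `W(k)` and let `U` be the trace-like map on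
`W(k)[x]`, which is inverse linear for the lift of Frobenius `x_i ↦ x_i ^ p`, and which takes
`x ^ (p m + p - 1)` to `x ^ m`. For a monomial `H` with `U (f ^ (p - 1) H) = 0` the map
`x ↦ (1 / p) U² (f ^ (p² - 1) H w₁(x))`, where `w₁` is the first ghost component of a lift of `x` to
`W(k)[x]`, is a well defined linear map from `F_* W₂(R)` to `R`. There are `β_i < p` with
`∑ β_i = 2 p - 1` and `d β_i < p (p - a d)`, and for `H` with exponents `p (p - a d) - 1 - d β_i` the
image of `1` is `1 / p` times the multinomial coefficient of the numbers `β_i + p a`, which is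
divisible by `p` exactly once.
-/

set_option autoImplicit false

universe u v

namespace Pool.Agent.Results.MP_34f229_ag.FermatHeightTwo

open TensorProduct MvPolynomial

section Definitions

variable (p ℓ : ℕ) [hp : Fact p.Prime] [NeZero ℓ] (S : Type u) [CommRing S]

/-- the restriction `R ^ (ℓ - 1) : W_ℓ(S) → S`, `(x_0, x_1, …) ↦ x_0` -/
noncomputable def res : TruncatedWittVector p ℓ S →+* S where
  toFun x := x.coeff 0
  map_one' := by
    rw [← map_one (WittVector.truncate ℓ), WittVector.coeff_truncate]
    exact map_one (WittVector.constantCoeff (p := p) (R := S))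
  map_zero' := by
    rw [← map_zero (WittVector.truncate ℓ), WittVector.coeff_truncate]
    exact map_zero (WittVector.constantCoeff (p := p) (R := S))
  map_mul' x y := by
    obtain ⟨X, rfl⟩ := WittVector.truncate_surjective p ℓ S x
    obtain ⟨Y, rfl⟩ := WittVector.truncate_surjective p ℓ S y
    rw [← map_mul, WittVector.coeff_truncate, WittVector.coeff_truncate, WittVector.coeff_truncate]
    exact map_mul (WittVector.constantCoeff (p := p) (R := S)) X Y
  map_add' x y := by
    obtain ⟨X, rfl⟩ := WittVector.truncate_surjective p ℓ S x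
    obtain ⟨Y, rfl⟩ := WittVector.truncate_surjective p ℓ S y
    rw [← map_add, WittVector.coeff_truncate, WittVector.coeff_truncate, WittVector.coeff_truncate]
    exact map_add (WittVector.constantCoeff (p := p) (R := S)) X Y

/-- `S` as an algebra over `W_ℓ(S)` via the restriction `R ^ (ℓ - 1)` -/
noncomputable abbrev resAlgebra : Algebra (TruncatedWittVector p ℓ S) S := (res p ℓ S).toAlgebra

attribute [local instance] resAlgebra

variable {p ℓ S}

/-- the ring `F_* W_ℓ(S)`: the ring `W_ℓ(S)`, as an algebra over `W_ℓ(S)` via `F` -/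
def FStar (_F : TruncatedWittVector p ℓ S →+* TruncatedWittVector p ℓ S) : Type u :=
  TruncatedWittVector p ℓ S

noncomputable instance (F : TruncatedWittVector p ℓ S →+* TruncatedWittVector p ℓ S) :
    CommRing (FStar F) := inferInstanceAs (CommRing (TruncatedWittVector p ℓ S))

noncomputable instance (F : TruncatedWittVector p ℓ S →+* TruncatedWittVector p ℓ S) :
    Algebra (TruncatedWittVector p ℓ S) (FStar F) := RingHom.toAlgebra F

/-- the `S`-module `Q_(S, ℓ) = S ⊗ F_* W_ℓ(S)`, tensor product over `W_ℓ(S)` -/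
abbrev Q (F : TruncatedWittVector p ℓ S →+* TruncatedWittVector p ℓ S) : Type u :=
  S ⊗[TruncatedWittVector p ℓ S] FStar F

/-- the `S`-linear map `Φ : S → Q_(S, ℓ)` induced by `F`, `s ↦ s ⊗ 1` -/
noncomputable def Phi (F : TruncatedWittVector p ℓ S →+* TruncatedWittVector p ℓ S) :
    S →ₗ[S] Q F :=
  (Algebra.TensorProduct.includeLeft (R := TruncatedWittVector p ℓ S) (S := S) (A := S)
    (B := FStar F)).toLinearMap

variable (p ℓ S)

/-- `S` is `ℓ`-quasi-F-pure: for the Frobenius `F` of `W_ℓ(S)`, which takes all the components to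
their `p`-th powers, the map `Φ` is pure: it remains injective after the tensor product with any
`S`-module -/
def QuasiFPureOfLength : Prop :=
  ∃ F : TruncatedWittVector p ℓ S →+* TruncatedWittVector p ℓ S,
    (∀ (x : TruncatedWittVector p ℓ S) (i : Fin ℓ), (F x).coeff i = x.coeff i ^ p) ∧
    ∀ (P : Type v) [AddCommGroup P] [Module S P], Function.Injective ((Phi F).lTensor P)

end Definitions

/-- `S` is quasi-F-pure: it is `ℓ`-quasi-F-pure for some `ℓ ≥ 1` -/
def QuasiFPure (p : ℕ) [Fact p.Prime] (S : Type u) [CommRing S] : Prop :=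
  ∃ (ℓ : ℕ) (_ : NeZero ℓ), QuasiFPureOfLength.{u, v} p ℓ S

/-- the homogeneous coordinate ring `k[x_1, …, x_n] / (x_1 ^ d + ⋯ + x_n ^ d)` -/
abbrev Fermat (k : Type u) [Field k] (n d : ℕ) : Type u :=
  MvPolynomial (Fin n) k ⧸ Ideal.span {(∑ i, X i ^ d : MvPolynomial (Fin n) k)}

attribute [local instance] resAlgebra

/-- the Frobenius of the truncated Witt vectors in characteristic `p` -/
noncomputable def frob (p ℓ : ℕ) [hp : Fact p.Prime] (S : Type u) [CommRing S] [CharP S p] :
    TruncatedWittVector p ℓ S →+* TruncatedWittVector p ℓ S :=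
  RingHom.liftOfSurjective (WittVector.truncate ℓ) (WittVector.truncate_surjective p ℓ S)
    ⟨(WittVector.truncate ℓ).comp WittVector.frobenius, by
      intro x hx
      rw [WittVector.mem_ker_truncate] at hx
      rw [RingHom.mem_ker, RingHom.comp_apply]
      change _ ∈ RingHom.ker (WittVector.truncate (p := p) (R := S) ℓ)
      rw [WittVector.mem_ker_truncate]
      intro i hi
      rw [WittVector.coeff_frobenius_charP, hx i hi, zero_pow hp.out.ne_zero]⟩

lemma frob_truncate (p ℓ : ℕ) [hp : Fact p.Prime] (S : Type u) [CommRing S] [CharP S p]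
    (x : WittVector p S) :
    frob p ℓ S (WittVector.truncate ℓ x) = WittVector.truncate ℓ (WittVector.frobenius x) :=
  RingHom.liftOfSurjective_comp_apply ..

lemma frob_coeff (p ℓ : ℕ) [hp : Fact p.Prime] (S : Type u) [CommRing S] [CharP S p]
    (x : TruncatedWittVector p ℓ S) (i : Fin ℓ) : (frob p ℓ S x).coeff i = x.coeff i ^ p := by
  obtain ⟨X, rfl⟩ := WittVector.truncate_surjective p ℓ S x
  rw [frob_truncate, WittVector.coeff_truncate, WittVector.coeff_truncate,
    WittVector.coeff_frobenius_charP]

/-- a splitting gives purity -/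
lemma pure_of_splitting (p ℓ : ℕ) [hp : Fact p.Prime] [NeZero ℓ] (S : Type u) [CommRing S]
    [CharP S p] (σ : TruncatedWittVector p ℓ S →+ S)
    (hσ : ∀ w x : WittVector p S, σ (WittVector.truncate ℓ (WittVector.frobenius w * x)) =
      w.coeff 0 * σ (WittVector.truncate ℓ x)) (v : S) (hv : v * σ 1 = 1) :
    QuasiFPureOfLength.{u, v} p ℓ S := by
  refine ⟨frob p ℓ S, frob_coeff p ℓ S, ?_⟩
  have hadd : ∀ x y : TruncatedWittVector p ℓ S, v * σ (x + y) = v * σ x + v * σ y := by
    intro x y
    rw [map_add, mul_add]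
  have hsmul : ∀ w x : TruncatedWittVector p ℓ S,
      v * σ (frob p ℓ S w * x) = res p ℓ S w * (v * σ x) := by
    intro w x
    obtain ⟨W, rfl⟩ := WittVector.truncate_surjective p ℓ S w
    obtain ⟨Y, rfl⟩ := WittVector.truncate_surjective p ℓ S x
    rw [frob_truncate, ← map_mul, hσ]
    change v * (W.coeff 0 * σ (WittVector.truncate ℓ Y)) =
      (WittVector.truncate ℓ W).coeff 0 * (v * σ (WittVector.truncate ℓ Y))
    rw [WittVector.coeff_truncate]
    change v * (W.coeff 0 * σ (WittVector.truncate ℓ Y)) =
      W.coeff 0 * (v * σ (WittVector.truncate ℓ Y))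
    ring
  intro P _ _
  let σ' : FStar (frob p ℓ S) →ₗ[TruncatedWittVector p ℓ S] S :=
    { toFun := fun x => v * σ x
      map_add' := fun x y => hadd x y
      map_smul' := fun w x => hsmul w x }
  let r : Q (frob p ℓ S) →ₗ[S] S := LinearMap.liftBaseChange S σ'
  have hr : r.comp (Phi (frob p ℓ S)) = LinearMap.id := by
    apply LinearMap.ext_ring
    rw [LinearMap.comp_apply]
    change r (1 ⊗ₜ (1 : FStar (frob p ℓ S))) = 1
    change LinearMap.liftBaseChange S σ' (1 ⊗ₜ (1 : FStar (frob p ℓ S))) = 1
    rw [LinearMap.liftBaseChange_tmul, one_smul]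
    exact hv
  have h2 : (r.lTensor P).comp ((Phi (frob p ℓ S)).lTensor P) = LinearMap.id := by
    rw [← LinearMap.lTensor_comp, hr, LinearMap.lTensor_id]
  intro x y hxy
  have := congrArg (r.lTensor P) hxy
  rwa [← LinearMap.comp_apply, ← LinearMap.comp_apply, h2, LinearMap.id_apply,
    LinearMap.id_apply] at this

/-- the Fermat ring has characteristic `p` -/
lemma charP_fermat {k : Type u} [Field k] (p : ℕ) [CharP k p] (n d : ℕ) (hd : d ≠ 0) :
    CharP (Fermat k n d) p := by
  have h1 : Nontrivial (Fermat k n d) := by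
    apply Ideal.Quotient.nontrivial_iff.mpr
    intro h
    rw [Ideal.span_singleton_eq_top] at h
    have h2 := h.map (MvPolynomial.eval (fun _ => (0 : k)))
    rw [map_sum] at h2
    simp [zero_pow hd] at h2
  exact charP_of_injective_algebraMap (algebraMap k (Fermat k n d)).injective p

/-- the exponents `β` -/
lemma exists_exponents (p n a d : ℕ) (hn : 3 ≤ n) (ha : 1 ≤ a) (hp : p = a * n + 2) (hd : 1 ≤ d)
    (hdn : d < n) : ∃ β M : Fin n → ℕ, (∀ i, M i + d * β i + 1 = p * (p - a * d)) ∧
      (∀ i, β i < p) ∧ ∑ i, β i = 2 * p - 1 := by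
  have h3 : 3 * a ≤ a * n := by nlinarith
  obtain ⟨β, hβ, hsum⟩ := Pool.Agent.R407.QF.exists_beta n (3 * a) (2 * p - 1) (by
    have h1 : n * (3 * a) = 3 * (a * n) := by ring
    rw [h1, hp]
    omega)
  have had : a * d + 3 ≤ p := by
    have h1 : a * (d + 1) ≤ a * n := Nat.mul_le_mul_left _ hdn
    rw [Nat.mul_add, Nat.mul_one] at h1
    omega
  have hb : ∀ i, d * β i + 1 ≤ p * (p - a * d) := by
    intro i
    have h1 : d * β i ≤ d * (3 * a) := Nat.mul_le_mul_left _ (hβ i)
    have h2 : d * (3 * a) = 3 * (a * d) := by ring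
    have h4 : p * 3 ≤ p * (p - a * d) := Nat.mul_le_mul_left _ (by omega)
    omega
  refine ⟨β, fun i => p * (p - a * d) - (d * β i + 1), fun i => ?_, fun i => ?_, hsum⟩
  · have := hb i
    change p * (p - a * d) - (d * β i + 1) + d * β i + 1 = p * (p - a * d)
    omega
  · have := hβ i
    omega

/-- **The Fermat hypersurfaces with `p = a n + 2` and `d < n` are 2-quasi-F-pure.** -/
theorem result {k : Type u} [Field k] (p : ℕ) [hp : Fact p.Prime] [CharP k p] [PerfectRing k p]
    (n a d : ℕ) (hn : 3 ≤ n) (ha : 1 ≤ a) (hpn : p = a * n + 2) (hd : 1 < d) (hdn : d < n) :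
    QuasiFPureOfLength.{u, v} p 2 (Fermat k n d) ∧ QuasiFPure.{u, v} p (Fermat k n d) := by
  have key : QuasiFPureOfLength.{u, v} p 2 (Fermat k n d) := by
    have hchar : CharP (Fermat k n d) p := charP_fermat p n d (by omega)
    obtain ⟨β, M, hM, hβ, hsum⟩ := exists_exponents p n a d hn ha hpn hd.le hdn
    have hap : a < p := by nlinarith
    have had : a * d ≤ p := by nlinarith
    have hdp : d < p := by nlinarith
    obtain ⟨N, hN, hpN⟩ := Pool.Agent.R407.QF.multinomial_val hpn hap β hβ hsum
    let φ : WittVector p k ≃+* WittVector p k := WittVector.frobeniusEquiv p k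
    have hφ : ∀ c : WittVector p k, (p : WittVector p k) ∣ φ c - c ^ p := by
      intro c
      rw [← Ideal.mem_span_singleton, WittVector.mem_span_p_iff_coeff_zero_eq_zero]
      change WittVector.constantCoeff (φ c - c ^ p) = 0
      rw [map_sub, map_pow]
      change (WittVector.frobenius c).coeff 0 - c.coeff 0 ^ p = 0
      rw [WittVector.coeff_frobenius_charP, sub_self]
    have htor : ∀ x : MvPolynomial (Fin n) (WittVector p k),
        (p : MvPolynomial (Fin n) (WittVector p k)) * x = 0 → x = 0 := by
      intro x hx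
      ext1 m
      rw [coeff_zero]
      apply WittVector.eq_zero_of_p_mul_eq_zero
      have h1 := congrArg (coeff m) hx
      rw [← map_natCast (C : WittVector p k →+* _), coeff_C_mul, coeff_zero] at h1
      rw [mul_comm]
      exact h1
    let q : MvPolynomial (Fin n) (WittVector p k) →+* Fermat k n d :=
      (Ideal.Quotient.mk _).comp (MvPolynomial.map (WittVector.constantCoeff (p := p) (R := k)))
    have hq : Function.Surjective q :=
      Ideal.Quotient.mk_surjective.comp
        (MvPolynomial.map_surjective _ (WittVector.constantCoeff_surjective p))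
    have hmapf : MvPolynomial.map (WittVector.constantCoeff (p := p) (R := k))
        (∑ i, X i ^ d : MvPolynomial (Fin n) (WittVector p k)) = ∑ i, X i ^ d := by
      rw [map_sum]
      apply Finset.sum_congr rfl
      intro i _
      rw [map_pow, map_X]
    have hqf : q (∑ i, X i ^ d) = 0 := by
      change Ideal.Quotient.mk _ (MvPolynomial.map _ _) = 0
      rw [hmapf, Ideal.Quotient.eq_zero_iff_mem]
      exact Ideal.mem_span_singleton_self _
    have hker : ∀ x, q x = 0 → ∃ y z, x = (∑ i, X i ^ d) * y +
        (p : MvPolynomial (Fin n) (WittVector p k)) * z := by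
      intro x hx
      change Ideal.Quotient.mk _ (MvPolynomial.map _ x) = 0 at hx
      rw [Ideal.Quotient.eq_zero_iff_mem, Ideal.mem_span_singleton] at hx
      obtain ⟨y', hy'⟩ := hx
      obtain ⟨y, rfl⟩ := MvPolynomial.map_surjective
        (WittVector.constantCoeff (p := p) (R := k)) (WittVector.constantCoeff_surjective p) y'
      rw [← hmapf, ← map_mul] at hy'
      have h1 : (C (p : WittVector p k) : MvPolynomial (Fin n) (WittVector p k)) ∣
          x - (∑ i, X i ^ d) * y := by
        rw [MvPolynomial.C_dvd_iff_dvd_coeff]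
        intro m
        rw [← Ideal.mem_span_singleton, WittVector.mem_span_p_iff_coeff_zero_eq_zero]
        change WittVector.constantCoeff (coeff m (x - (∑ i, X i ^ d) * y)) = 0
        rw [← MvPolynomial.coeff_map, map_sub, hy', sub_self, coeff_zero]
      obtain ⟨z, hz⟩ := h1
      refine ⟨y, z, ?_⟩
      rw [map_natCast] at hz
      rw [← hz]
      ring
    obtain ⟨σ, hσ, hσ1⟩ := Pool.Agent.R407.QF.exists_sigma φ hφ
      (∑ i, X i ^ d : MvPolynomial (Fin n) (WittVector p k)) (∏ i, X i ^ M i)
      (Pool.Agent.R407.QF.U_pow_zero hp.out φ (by omega) hdp β M hM hβ hsum) htor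
      (N : MvPolynomial (Fin n) (WittVector p k))
      (by
        rw [Pool.Agent.R407.QF.UU_pow hp.out φ (by omega) hdp hpn had hap β M hM hβ hsum, hN,
          Nat.cast_mul]) q hq hqf hker
    have hNk : (N : k) ≠ 0 := by
      rw [Ne, CharP.cast_eq_zero_iff k p]
      exact hpN
    refine pure_of_splitting p 2 (Fermat k n d) σ hσ (algebraMap k (Fermat k n d) ((N : k)⁻¹)) ?_
    rw [hσ1, map_natCast, ← map_natCast (algebraMap k (Fermat k n d)), ← map_mul,
      inv_mul_cancel₀ hNk, map_one]
  exact ⟨key, 2, inferInstance, key⟩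

end Pool.Agent.Results.MP_34f229_ag.FermatHeightTwo
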